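import Pool.Agent.Helper64.Nita.Main

namespace Pool.Agent.Results.MP_8e3a3e_al.NoNormFour

open Pool.Agent.Helper64.Nita

/-- There is no C-NITA as in the problem with `b_3 ^ 2 = c_3 + b_6` and
`(b_3 b_8, b_3 b_8) = 4`. -/
theorem result {ι A : Type*} [CommRing A] [Algebra ℂ A] (C : CNITA ι A) (b3 : ι)
    (_hgen : C.Generates b3) (_hnr : C.bar b3 ≠ b3) (h3 : C.degNat b3 = 3)
    (h1 : ∀ i, C.degNat i = 1 → i = C.one) (h2 : ∀ i, C.degNat i ≠ 2) :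
    ¬ ∃ b8 c3 b6 : ι, C.b b3 * C.b (C.bar b3) = 1 + C.b b8 ∧
      C.degNat c3 = 3 ∧ C.degNat b6 = 6 ∧ c3 ≠ b3 ∧ c3 ≠ C.bar b3 ∧
      C.b b3 * C.b b3 = C.b c3 + C.b b6 ∧ C.sq (C.b b3 * C.b b8) = 4 := by
  rintro ⟨b8, c3, b6, h8, hc, h6, -, hcb, hsq, hn⟩
  exact C.no_norm_four h3 h1 h2 h8 hc h6 hcb hsq hn

end Pool.Agent.Results.MP_8e3a3e_al.NoNormFour
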